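import Pool.Agent.Run7.h853.Ca.Fin

/-!
# Hodge classes on products of Calabi-Yau threefolds are absolutely Hodge
-/

open CategoryTheory AlgebraicGeometry

universe u

namespace Pool.Agent.Results.MP_4e1cf2_ag.CalabiYauProducts

open Pool.Agent.H914 Pool.Agent.Y121.AHS Pool.Agent.W437.CY
open Run7.h853.Ca

variable {k : Type u} [Field k] {𝒱 : VarClass k} {ops : CycleOps 𝒱}

theorem result (T : HodgeTheory ops) {I I' : Type u} (T' : I → HodgeTheory ops) (t : I' → I)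
    (C : ∀ a, Comparison T.W (T' (t a)).W ℂ) {ι J : Type} [Finite ι] [Finite J]
    {N m : ι → ℕ} {w' N' m' : J → ℕ} (X : ι → 𝒱.Obj) (V : ∀ i, PolHS 3 (N i)) (Z : 𝒱.Obj)
    (W : ∀ j, PolHS (w' j) (N' j)) (n : ℕ) (hV : ∀ i, GenericCY (V i))
    (hX : ∀ i, OfType T (X i) (V i) (m i)) (hZ : n = 0 ∨ IsSumOf T Z W m')
    (hi : ∀ i j, IsIndep (V i) (W j)) :
    (∀ r ≤ n, ∀ Y, ProductOf Z X r Y → AbsHodgeFor T T' t C Y) ↔
      ∀ P, IsBasic Z X V n P → AbsHodgeFor T T' t C P :=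
  fin_main T T' t C X V Z W n hV hX hZ hi

end Pool.Agent.Results.MP_4e1cf2_ag.CalabiYauProducts
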