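import Pool.Agent.Run7.h306.AH1

/-!
# Hodge classes and absolute Hodge classes on the products of arbitrary varieties with Fermat varieties
# of large prime power degrees

Let `Z` be **any** smooth projective complex variety with Betti numbers at most `B` and of level at most
`D` (its cohomology is the sum of spaces `H^(p, q)` with `|p - q| ≤ D`; `D = dim Z` is possible), and let
`V` be a product of Fermat varieties `x_0 ^ m + ⋯ + x_(n+1) ^ m = 0`, of any dimensions, whose degrees
`m_j` are powers of prime numbers `p_j` (different or equal) with

  `p_j > C (B D ^ 2) ^ (1 + ε)` for all `j`,

where `C` depends only on `ε > 0`. Then

* all Hodge classes on `Z × V` are sums of products `x × ψ` of Hodge classes `x` on `Z` and Hodge classes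
  `ψ` on `V` whose components are in lines of algebraic classes (`IsGenerated`: Shioda, Aoki);
* **all Hodge classes on `Z × V` are absolute Hodge classes if and only if all Hodge classes on `Z` are
  absolute Hodge classes.**

There is no condition on the Mumford-Tate group of `Z`; neither the Hodge classes on `Z` nor their
algebraicity are known in general. Since `V` has as many factors, of as large dimensions, as we like,
this gives for each `Z` infinitely many families of varieties for which the question is reduced to the
one for `Z`.

## The definitions

The cohomology of `Z` is given by `H : Coh v` (starting files): a rational space `ℚ ^ v` with a basis of
homogeneous elements and the Hodge operator `H.z`, which is the multiplication by `p - q` on the classes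
of type `(p, q)`. The complex cohomology of a Fermat variety has the basis `Label`: the classes `h ^ i` of
the linear sections and a generator `e a` of the line `V(a)` for each character `a` of the primitive
cohomology; the generators are chosen such that the automorphisms `σ` of `ℂ` map `e a` to `e (t a)`, where
`σ` is the `t`-th power on the roots of unity (`Rational`), and `hodge` is the number `p - q` for the
elements of the basis. `IsHodgeClassTimes` says that a class on `Z × V` is rational and of type `(p, p)`.

## The proof

Let `φ` be a Hodge class on `Z × V` and `b` a family of characters of `V` such that the coefficient `φ b`
(a class in the complex cohomology of `Z`) is not zero. Then `φ (t b)` is the conjugate of `φ b` by `σ`, so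
the type of the conjugates of `φ b` is given by an odd function `T` of `t`, the product of an element of
the group ring with the Stickelberger element. So `|T| ≤ D`, and the classes `φ (t b)` with different
values of `T` and its translates are linearly independent, which bounds the dimension of the space of
functions generated by the translates of `T` by a Betti number of `Z`. All generalized Bernoulli
numbers of characters modulo `p ^ a` have the lower bound of Siegel; with Parseval's formula, used for `T`
and for the element of the group ring, this gives `T = 0` or `c_ε p ^ (1 - ε) ≤ B D ^ 2`. So `T = 0`: the
family `b` is a Hodge character, it is generated by the characters of surfaces, pairs and standard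
characters (theorem of the starting files for prime powers), and the span of the conjugates of `φ b` is
generated by Hodge classes of `Z`. (The constant `C` is not effective, because Siegel's theorem is used.)

The product `x × ψ` of an absolute Hodge class `x` on `Z` and a class `ψ` of an algebraic cycle on `V` is an
absolute Hodge class: the class of the conjugate cycle gives `ψ'`. The converse is seen on the fibre over
a point of `V`.

The definition of absolute Hodge classes (`Conjugates.IsAbsolute`, `Conjugates.IsAbsoluteTimes`) is the one
of the problem. Given are (`Conjugates`) the conjugates `Z^σ` for the automorphisms `σ` of `ℂ` (the
elements of `C.S`; `V` is defined over `ℚ`), the products `C.L σ` of the de Rham and the étale cohomology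
of `Z^σ` and of `Z^σ × V` (`Components`), the map `C.c₀ σ` which sends a rational class to the images of its
components under `σ`, and the map `C.c σ` which sends a rational class on `Z^σ` or `Z^σ × V` to its
components. Two properties of these maps are used: they are compatible with the restriction to the fibre
over a point (`Comparison.res`), and (`SameCycles`) the conjugates of algebraic cycles on `V` exist.
-/

set_option autoImplicit false

namespace Pool.Agent.Results.MP_4e1cf2_ag.FermatTimesVarieties

open Pool.Agent.TH131.GHC Run7.h306.HF Run7.h306.AH

/-- **All Hodge classes on `Z × V` are absolute Hodge classes if and only if all Hodge classes on `Z`
are**, for all varieties `Z` with Betti numbers at most `B` and of level at most `D`, and all products `V`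
of Fermat varieties whose degrees are powers of prime numbers larger than `C₀ (B D ^ 2) ^ (1 + ε)`; and
all Hodge classes on `Z × V` are sums of products of Hodge classes on `Z` and algebraic classes on `V`. -/
theorem result (ε : ℝ) (hε : 0 < ε) : ∃ C₀ : ℝ, 0 < C₀ ∧
    ∀ (B D v : ℕ) (H : Coh v) (J : Type) [Fintype J] (m n : J → ℕ) [∀ j, NeZero (m j)],
      IsBounded H B D → AreLargePrimePowers C₀ ε B D m →
        HodgeClassesAreProducts m n H ∧
          ∀ C : Conjugates m n v, C.AbsoluteTimes H ↔ C.Absolute H :=
  main ε hε

end Pool.Agent.Results.MP_4e1cf2_ag.FermatTimesVarieties
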